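import Pool.Agent.K6.H11.GM.Cross

/-!
# The largest Gromov mass of a unit ball

For every dimension `d ≥ 1` the largest value of Gromov's mass `vol^m_M(M)` over all `o`-symmetric
convex bodies `M` of `ℝ^d` is the volume of the Euclidean unit ball, and it is attained exactly by
the ellipsoids.

Idea of the proof. `vol^m_M(M) = vol(M) / max |det(v_1, …, v_d)|`. Steiner symmetrization preserves
the volume and does not increase the largest determinant; a body with the least second moment in the
class of bodies with given bounds is a ball. If `M` has the largest mass, then so has every Steiner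
symmetral `N` of `M`, and every boundary point of `N` is a vertex of a largest inscribed
cross-polytope. This forces the midpoints of the parallel chords of every plane section of `M`
through the origin to be collinear; hence these sections are ellipses, and `M` is an ellipsoid by
the theorem of Jordan and von Neumann.
-/

set_option autoImplicit false

open MeasureTheory Set Metric
open scoped Nat

namespace Pool.Agent.Results.MP_77d991_gt.GromovMassMax

/-- An `o`-symmetric convex body of `ℝ^d`. -/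
structure IsSymBody {d : ℕ} (M : Set (EuclideanSpace ℝ (Fin d))) : Prop where
  isCompact : IsCompact M
  convex : Convex ℝ M
  nonempty_interior : (interior M).Nonempty
  symm : ∀ x ∈ M, -x ∈ M

/-- The set `conv {± v_1, …, ± v_d}`. -/
def crossPolytope {d : ℕ} (v : Fin d → EuclideanSpace ℝ (Fin d)) :
    Set (EuclideanSpace ℝ (Fin d)) :=
  convexHull ℝ {x | ∃ i, x = v i ∨ x = -v i}

/-- The volumes of the cross-polytopes inscribed in `M`. -/
def inscribedVolumes {d : ℕ} (M : Set (EuclideanSpace ℝ (Fin d))) : Set ℝ :=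
  {t | ∃ v : Fin d → EuclideanSpace ℝ (Fin d), LinearIndependent ℝ v ∧ (∀ i, v i ∈ M) ∧
    t = (volume (crossPolytope v)).toReal}

/-- Gromov's mass `vol^m_M(M)` of `M`: Lebesgue measure is scaled so that an inscribed cross-polytope
of maximal volume has measure `2^d / d!`. -/
noncomputable def gromovMass {d : ℕ} (M : Set (EuclideanSpace ℝ (Fin d))) : ℝ :=
  2 ^ d / d ! * ((volume M).toReal / sSup (inscribedVolumes M))

/-- `M` is an ellipsoid with centre at the origin. -/
def IsEllipsoid {d : ℕ} (M : Set (EuclideanSpace ℝ (Fin d))) : Prop :=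
  ∃ T : EuclideanSpace ℝ (Fin d) ≃ₗ[ℝ] EuclideanSpace ℝ (Fin d), M = T '' closedBall 0 1

open Pool.Agent.K6.H11.GM

lemma factor_pos (d : ℕ) : (0 : ℝ) < 2 ^ d / d ! := by positivity

lemma cross_toReal {d : ℕ} (i₀ : Fin d) (v : Fin d → EuclideanSpace ℝ (Fin d)) :
    (volume (crossPolytope v)).toReal = 2 ^ d / d ! * |om d v| := by
  have h : crossPolytope v = cross v := rfl
  rw [h, volume_cross i₀, ENNReal.toReal_ofReal (mul_nonneg (factor_pos d).le (abs_nonneg _))]

/-- The largest determinant. -/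
lemma exists_max {d : ℕ} {M : Set (EuclideanSpace ℝ (Fin d))} (hM : IsSymBody M) :
    ∃ D : ℝ, 0 < D ∧ DB M D ∧ ∃ v : Fin d → EuclideanSpace ℝ (Fin d), (∀ i, v i ∈ M) ∧
      |om d v| = D := by
  have h0 := zero_mem_interior hM.convex hM.symm hM.nonempty_interior
  have hK : IsCompact (Set.pi univ (fun _ : Fin d => M)) := isCompact_univ_pi fun _ => hM.isCompact
  obtain ⟨v, hv, hmax⟩ := hK.exists_isMaxOn ⟨fun _ => 0, fun _ _ => interior_subset h0⟩
    (om_continuous (d := d)).abs.continuousOn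
  refine ⟨|om d v|, ?_, fun w hw => hmax (fun i _ => hw i), v, fun i => hv i (mem_univ i), rfl⟩
  obtain ⟨r, hr, hball⟩ := Metric.isOpen_iff.1 isOpen_interior _ h0
  have h1 : ∀ i, (r / 2) • stdb d i ∈ M := by
    intro i
    apply interior_subset
    apply hball
    rw [mem_ball_zero_iff, norm_smul, Real.norm_eq_abs, abs_of_pos (by positivity)]
    have : ‖stdb d i‖ = 1 := by simp [stdb]
    rw [this]; linarith
  have h2 : |om d (fun i => (r / 2) • stdb d i)| ≤ |om d v| := hmax (fun i _ => h1 i)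
  have h3 := (om d).toMultilinearMap.map_smul_univ (fun _ => r / 2) (stdb d)
  simp only [Finset.prod_const, Finset.card_univ, Fintype.card_fin] at h3
  have h4 : om d (fun i => (r / 2) • stdb d i) = (r / 2) ^ d := by
    have : om d (fun i => (r / 2) • stdb d i) = (r / 2) ^ d • om d (stdb d) := h3
    have h5 : om d (stdb d) = 1 := om_self
    rw [this, h5, smul_eq_mul, mul_one]
  rw [h4] at h2
  refine lt_of_lt_of_le ?_ h2
  rw [abs_pos]
  positivity

lemma isGreatest_inscribed {d : ℕ} (i₀ : Fin d) {M : Set (EuclideanSpace ℝ (Fin d))} {D : ℝ}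
    (hD : 0 < D) (hdb : DB M D) {v : Fin d → EuclideanSpace ℝ (Fin d)} (hv : ∀ i, v i ∈ M)
    (hvD : |om d v| = D) : IsGreatest (inscribedVolumes M) (2 ^ d / d ! * D) := by
  constructor
  · refine ⟨v, ?_, hv, ?_⟩
    · by_contra hli
      rw [(om d).map_linearDependent v hli, abs_zero] at hvD
      exact hD.ne hvD
    · rw [cross_toReal i₀, hvD]
  · rintro t ⟨w, -, hw, rfl⟩
    rw [cross_toReal i₀]
    exact mul_le_mul_of_nonneg_left (hdb w hw) (factor_pos d).le

lemma mass_eq {d : ℕ} (i₀ : Fin d) {M : Set (EuclideanSpace ℝ (Fin d))} {D : ℝ}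
    (hD : 0 < D) (hdb : DB M D) {v : Fin d → EuclideanSpace ℝ (Fin d)} (hv : ∀ i, v i ∈ M)
    (hvD : |om d v| = D) : gromovMass M = (volume M).toReal / D := by
  unfold gromovMass
  rw [(isGreatest_inscribed i₀ hD hdb hv hvD).csSup_eq]
  have := factor_pos d
  field_simp

lemma volume_image_ball {d : ℕ}
    (T : EuclideanSpace ℝ (Fin d) ≃ₗ[ℝ] EuclideanSpace ℝ (Fin d)) :
    (volume (T '' closedBall (0 : EuclideanSpace ℝ (Fin d)) 1)).toReal =
      |LinearMap.det (T : EuclideanSpace ℝ (Fin d) →ₗ[ℝ] EuclideanSpace ℝ (Fin d))| *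
        (volume (closedBall (0 : EuclideanSpace ℝ (Fin d)) 1)).toReal := by
  have h := Measure.addHaar_image_linearMap (volume : Measure (EuclideanSpace ℝ (Fin d)))
    (T : EuclideanSpace ℝ (Fin d) →ₗ[ℝ] EuclideanSpace ℝ (Fin d)) (closedBall 0 1)
  have e : (T : EuclideanSpace ℝ (Fin d) →ₗ[ℝ] EuclideanSpace ℝ (Fin d)) '' closedBall 0 1 =
      T '' closedBall (0 : EuclideanSpace ℝ (Fin d)) 1 := rfl
  rw [← e, h, ENNReal.toReal_mul, ENNReal.toReal_ofReal (abs_nonneg _)]

lemma isSymBody_ellipsoid {d : ℕ}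
    (T : EuclideanSpace ℝ (Fin d) ≃ₗ[ℝ] EuclideanSpace ℝ (Fin d)) :
    IsSymBody (T '' closedBall (0 : EuclideanSpace ℝ (Fin d)) 1) := by
  have hTc : Continuous T := T.toLinearMap.continuous_of_finiteDimensional
  refine ⟨(isCompact_closedBall _ _).image hTc,
    (convex_closedBall _ _).linear_image T.toLinearMap, ?_, ?_⟩
  · have h1 : IsOpen (T '' ball (0 : EuclideanSpace ℝ (Fin d)) 1) :=
      T.toContinuousLinearEquiv.toHomeomorph.isOpenMap _ isOpen_ball
    have h2 : T '' ball (0 : EuclideanSpace ℝ (Fin d)) 1 ⊆ T '' closedBall 0 1 :=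
      image_mono ball_subset_closedBall
    exact ⟨T 0, interior_maximal h2 h1 ⟨0, mem_ball_self one_pos, rfl⟩⟩
  · rintro _ ⟨x, hx, rfl⟩
    exact ⟨-x, by simpa using hx, by rw [map_neg]⟩

lemma mass_ellipsoid {d : ℕ} (i₀ : Fin d)
    (T : EuclideanSpace ℝ (Fin d) ≃ₗ[ℝ] EuclideanSpace ℝ (Fin d)) :
    gromovMass (T '' closedBall (0 : EuclideanSpace ℝ (Fin d)) 1) =
      (volume (closedBall (0 : EuclideanSpace ℝ (Fin d)) 1)).toReal := by
  set δ : ℝ := |LinearMap.det (T : EuclideanSpace ℝ (Fin d) →ₗ[ℝ] EuclideanSpace ℝ (Fin d))|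
    with hδ
  have hδ0 : 0 < δ := abs_pos.2 (LinearEquiv.isUnit_det' T).ne_zero
  have hdb : DB (T '' closedBall (0 : EuclideanSpace ℝ (Fin d)) 1) δ := by
    intro w hw
    choose x hx hxw using hw
    have e : w = fun i => (T : EuclideanSpace ℝ (Fin d) →ₗ[ℝ] EuclideanSpace ℝ (Fin d)) (x i) :=
      funext fun i => (hxw i).symm
    rw [e, om_map, abs_mul, ← hδ]
    have h1 : |om d x| ≤ 1 := by
      refine (om_le x).trans (Finset.prod_le_one (fun i _ => norm_nonneg _) fun i _ => ?_)
      exact mem_closedBall_zero_iff.1 (hx i)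
    calc δ * |om d x| ≤ δ * 1 := mul_le_mul_of_nonneg_left h1 hδ0.le
      _ = δ := mul_one δ
  have hvD : |om d (fun i =>
      (T : EuclideanSpace ℝ (Fin d) →ₗ[ℝ] EuclideanSpace ℝ (Fin d)) (stdb d i))| = δ := by
    have h5 : om d (stdb d) = 1 := om_self
    rw [om_map, h5, mul_one]
  rw [mass_eq i₀ hδ0 hdb (fun i => ⟨stdb d i, by simp [stdb], rfl⟩) hvD, volume_image_ball, ← hδ,
    mul_comm, mul_div_assoc, div_self hδ0.ne', mul_one]

/-- **The largest Gromov mass.** In every dimension `d ≥ 1`: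
(1) every `o`-symmetric convex body contains an inscribed cross-polytope of maximal volume;
(2) the volume of the Euclidean unit ball is the largest value (in particular the least upper bound)
of `vol^m_M(M)` over all `o`-symmetric convex bodies `M`;
(3) this value is `π^(d/2) / Γ(d/2 + 1)`;
(4) the bodies attaining it are exactly the ellipsoids. -/
theorem result (d : ℕ) (hd : 1 ≤ d) :
    (∀ M : Set (EuclideanSpace ℝ (Fin d)), IsSymBody M →
      IsGreatest (inscribedVolumes M) (sSup (inscribedVolumes M))) ∧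
    IsGreatest {t : ℝ | ∃ M : Set (EuclideanSpace ℝ (Fin d)), IsSymBody M ∧ t = gromovMass M}
      (volume (closedBall (0 : EuclideanSpace ℝ (Fin d)) 1)).toReal ∧
    (volume (closedBall (0 : EuclideanSpace ℝ (Fin d)) 1)).toReal =
      Real.pi ^ ((d : ℝ) / 2) / Real.Gamma ((d : ℝ) / 2 + 1) ∧
    ∀ M : Set (EuclideanSpace ℝ (Fin d)), IsSymBody M →
      (gromovMass M = (volume (closedBall (0 : EuclideanSpace ℝ (Fin d)) 1)).toReal ↔
        IsEllipsoid M) := by
  have i₀ : Fin d := ⟨0, hd⟩
  have hb : volume (closedBall (0 : EuclideanSpace ℝ (Fin d)) 1) ≠ ⊤ :=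
    (isCompact_closedBall _ _).measure_lt_top.ne
  refine ⟨fun M hM => ?_, ⟨?_, ?_⟩, ?_, fun M hM => ⟨fun h => ?_, ?_⟩⟩
  · obtain ⟨D, hD, hdb, v, hv, hvD⟩ := exists_max hM
    have := isGreatest_inscribed i₀ hD hdb hv hvD
    rwa [this.csSup_eq]
  · exact ⟨_, isSymBody_ellipsoid (LinearEquiv.refl ℝ _), (mass_ellipsoid i₀ _).symm⟩
  · rintro t ⟨M, hM, rfl⟩
    obtain ⟨D, hD, hdb, v, hv, hvD⟩ := exists_max hM
    rw [mass_eq i₀ hD hdb hv hvD, div_le_iff₀ hD]
    have h1 := volume_le hM.isCompact hM.convex hdb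
    have h2 := ENNReal.toReal_mono (ENNReal.mul_ne_top ENNReal.ofReal_ne_top hb) h1
    rw [ENNReal.toReal_mul, ENNReal.toReal_ofReal hD.le] at h2
    linarith
  · have : Nonempty (Fin d) := ⟨i₀⟩
    rw [EuclideanSpace.volume_closedBall]
    simp only [ENNReal.ofReal_one, one_pow, one_mul, Fintype.card_fin]
    rw [ENNReal.toReal_ofReal (by positivity)]
    congr 1
    rw [Real.sqrt_eq_rpow, ← Real.rpow_natCast, ← Real.rpow_mul Real.pi_pos.le]
    congr 1
    ring
  · obtain ⟨D, hD, hdb, v, hv, hvD⟩ := exists_max hM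
    rw [mass_eq i₀ hD hdb hv hvD, div_eq_iff hD.ne'] at h
    have hext : Ext M D := by
      refine ⟨hM.isCompact, hM.convex, hM.symm,
        zero_mem_interior hM.convex hM.symm hM.nonempty_interior, hdb, ?_⟩
      have hMf : volume M ≠ ⊤ := hM.isCompact.measure_lt_top.ne
      rw [← ENNReal.toReal_eq_toReal_iff' hMf (ENNReal.mul_ne_top ENNReal.ofReal_ne_top hb),
        ENNReal.toReal_mul, ENNReal.toReal_ofReal hD.le, h, mul_comm]
    exact hext.ellipsoid i₀
  · rintro ⟨T, rfl⟩
    exact mass_ellipsoid i₀ T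

end Pool.Agent.Results.MP_77d991_gt.GromovMassMax
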